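import Pool.Agent.CGA.MEnd

/-!
# The shortest closed geodesic on a 2-sphere: length² ≤ 4π · Area

`S2` is the unit sphere of `ℝ³` (Mathlib), `f : S2 → ℝ` a positive function of class `C²`,
`g = f² g₀` the conformal metric (`g₀` round).  `CGA.IsClosedGeodesic f ℓ γ` says that `γ` is a
closed geodesic of `g` of length `ℓ > 0`, and `CGA.area f = ∫ f²` is the area of `g`.
-/

namespace Pool.Agent.Results.MP_249bb7_gt.FourPi

open scoped Real Manifold ContDiff

/-- Every conformal metric `f² g₀` on the 2-sphere (by uniformisation: every Riemannian metric up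
to isometry) has a closed geodesic whose length `ℓ` satisfies `ℓ² ≤ 4π · Area`. -/
theorem result (f : Metric.sphere (0 : EuclideanSpace ℝ (Fin 3)) 1 → ℝ)
    (hf : ContMDiff (𝓡 2) 𝓘(ℝ, ℝ) 2 f) (hpos : ∀ x, 0 < f x) :
    ∃ (ℓ : ℝ) (γ : ℝ → EuclideanSpace ℝ (Fin 3)),
      CGA.IsClosedGeodesic f ℓ γ ∧ ℓ ^ 2 ≤ 4 * π * CGA.area f :=
  CGA.main_theorem f hf hpos

end Pool.Agent.Results.MP_249bb7_gt.FourPi
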